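import Mathlib
import Pool.Agent.helper45.CubeA
import Pool.Agent.helper45.CubeG

/-!
# Colourings of count vectors and the product construction

`Col m J`: there is a 2-colouring `f` of `ℕ^m` such that for every `c` and every `j ∈ J` one of the
points `c + j e_s` has a colour different from that of `c`.
-/

namespace Pool.Agent.helper12.HJ

open Finset Pool.Agent.helper45.Cube

/-- 2-colourings of `ℕ^m` with no monochromatic simplex `c, c + j e_0, …, c + j e_(m-1)`,
`j ∈ J` -/
def Col (m : ℕ) (J : Set ℕ) : Prop :=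
  ∃ f : (Fin m → ℕ) → Bool, ∀ c : Fin m → ℕ, ∀ j ∈ J, ∃ s, f (c + Pi.single s j) ≠ f c

theorem Col.mono {m : ℕ} {J K : Set ℕ} (h : Col m J) (hK : K ⊆ J) : Col m K := by
  obtain ⟨f, hf⟩ := h
  exact ⟨f, fun c j hj => hf c j (hK hj)⟩

/-- the product construction -/
theorem Col.add {m n : ℕ} {J K : Set ℕ} (hJ : Col m J) (hK : Col n K) : Col (m + n) (J ∪ K) := by
  obtain ⟨f, hf⟩ := hJ
  obtain ⟨g, hg⟩ := hK
  refine ⟨fun c => xor (f fun i => c (Fin.castAdd n i)) (g fun i => c (Fin.natAdd m i)),
    fun c j hj => ?_⟩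
  have e1 : ∀ s : Fin m, (fun i => (c + (Pi.single (Fin.castAdd n s) j : Fin (m + n) → ℕ)) (Fin.castAdd n i)) =
      (fun i => c (Fin.castAdd n i)) + Pi.single s j := by
    intro s; funext i
    by_cases h : i = s
    · subst h; simp
    · have : Fin.castAdd n i ≠ Fin.castAdd n s := fun h' => h (Fin.castAdd_injective m n h')
      simp [Pi.single_apply, h]
  have e2 : ∀ s : Fin m, (fun i => (c + (Pi.single (Fin.castAdd n s) j : Fin (m + n) → ℕ)) (Fin.natAdd m i)) =
      fun i => c (Fin.natAdd m i) := by
    intro s; funext i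
    have : Fin.natAdd m i ≠ Fin.castAdd n s := by
      intro h'
      have := congrArg Fin.val h'
      simp only [Fin.val_natAdd, Fin.val_castAdd] at this
      have := s.isLt
      omega
    simp [Pi.single_apply, this]
  have e3 : ∀ s : Fin n, (fun i => (c + (Pi.single (Fin.natAdd m s) j : Fin (m + n) → ℕ)) (Fin.natAdd m i)) =
      (fun i => c (Fin.natAdd m i)) + Pi.single s j := by
    intro s; funext i
    by_cases h : i = s
    · subst h; simp
    · have : Fin.natAdd m i ≠ Fin.natAdd m s := by
        intro h'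
        apply h
        have := congrArg Fin.val h'
        simp only [Fin.val_natAdd] at this
        exact Fin.ext (by omega)
      simp [Pi.single_apply, h, this]
  have e4 : ∀ s : Fin n, (fun i => (c + (Pi.single (Fin.natAdd m s) j : Fin (m + n) → ℕ)) (Fin.castAdd n i)) =
      fun i => c (Fin.castAdd n i) := by
    intro s; funext i
    have : Fin.castAdd n i ≠ Fin.natAdd m s := by
      intro h'
      have := congrArg Fin.val h'
      simp only [Fin.val_natAdd, Fin.val_castAdd] at this
      have := i.isLt
      omega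
    simp [Pi.single_apply, this]
  rcases hj with hj | hj
  · obtain ⟨s, hs⟩ := hf (fun i => c (Fin.castAdd n i)) j hj
    refine ⟨Fin.castAdd n s, fun h => hs ?_⟩
    simp only [e1, e2] at h
    exact Bool.xor_left_inj.mp h
  · obtain ⟨s, hs⟩ := hg (fun i => c (Fin.natAdd m i)) j hj
    refine ⟨Fin.natAdd m s, fun h => hs ?_⟩
    simp only [e3, e4] at h
    exact Bool.xor_right_inj.mp h

/-- scaling -/
theorem Col.scale {m : ℕ} {J : Set ℕ} (h : Col m J) {Q : ℕ} (hQ : 0 < Q) :
    Col m {j | ∃ i ∈ J, j = Q * i} := by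
  obtain ⟨f, hf⟩ := h
  refine ⟨fun c => f fun i => c i / Q, ?_⟩
  rintro c j ⟨i, hi, rfl⟩
  obtain ⟨s, hs⟩ := hf (fun a => c a / Q) i hi
  refine ⟨s, fun h => hs ?_⟩
  refine Eq.trans ?_ h
  show f _ = f _
  congr 1
  funext a
  by_cases ha : a = s
  · subst ha
    simp only [Pi.add_apply, Pi.single_eq_same]
    rw [Nat.add_mul_div_left _ _ hQ]
  · simp [Pi.single_apply, ha]

/-- product of two moduli -/
theorem Col.mul {m n M Q : ℕ} (hQ : 0 < Q) (h1 : Col m {j | ¬ Q ∣ j})
    (h2 : Col n {j | ¬ M ∣ j}) : Col (m + n) {j | ¬ (Q * M) ∣ j} := by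
  refine (h1.add (h2.scale hQ)).mono ?_
  intro j hj
  by_cases h : Q ∣ j
  · obtain ⟨i, rfl⟩ := h
    exact Or.inr ⟨i, fun hM => hj (Nat.mul_dvd_mul_left Q hM), rfl⟩
  · exact Or.inl h

theorem Col.pow {m M : ℕ} (hM : 0 < M) (h : Col m {j | ¬ M ∣ j}) (e : ℕ) :
    Col (m * e) {j | ¬ (M ^ e) ∣ j} := by
  induction e with
  | zero =>
    refine ⟨fun _ => true, fun c j hj => ?_⟩
    simp at hj
  | succ e ih =>
    rw [Nat.mul_succ, pow_succ]
    exact Col.mul (by positivity) ih h

/-- The number of coordinates of each value along a line. -/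
theorem line_counts {k n : ℕ} (K : Fin n → Kind k) :
    ∃ (c : Fin k → ℕ) (j l : ℕ), j + l ≤ n ∧ ((∃ i, (K i).active = true) → 1 ≤ j + l) ∧
      ∀ t a : Fin k, (∑ i, if (K i).val t = a then 1 else 0) =
        c a + (if t = a then j else 0) + (if t.rev = a then l else 0) := by
  induction n with
  | zero =>
    refine ⟨fun _ => 0, 0, 0, le_refl _, ?_, fun t a => by simp⟩
    rintro ⟨i, _⟩; exact i.elim0
  | succ n ih =>
    obtain ⟨c, j, l, h1, h2, h3⟩ := ih (fun i => K i.succ)
    have hact : (∃ i, (K i).active = true) →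
        (K 0).active = true ∨ ∃ i, (K (Fin.succ i)).active = true := by
      rintro ⟨i, hi⟩
      rcases Fin.eq_zero_or_eq_succ i with rfl | ⟨j, rfl⟩
      · exact Or.inl hi
      · exact Or.inr ⟨j, hi⟩
    cases h0 : K 0 with
    | const b =>
      refine ⟨fun a => c a + if b = a then 1 else 0, j, l, by omega, ?_, fun t a => ?_⟩
      · intro h
        rcases hact h with h | h
        · rw [h0] at h; exact absurd h (by simp [Kind.active])
        · exact h2 h
      · rw [Fin.sum_univ_succ, h3 t a, h0]
        have : (Kind.const b).val t = b := rfl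
        rw [this]; ring
    | fwd =>
      refine ⟨c, j + 1, l, by omega, fun _ => by omega, fun t a => ?_⟩
      rw [Fin.sum_univ_succ, h3 t a, h0]
      have : (Kind.fwd : Kind k).val t = t := rfl
      rw [this]
      split_ifs <;> omega
    | bwd =>
      refine ⟨c, j, l + 1, by omega, fun _ => by omega, fun t a => ?_⟩
      rw [Fin.sum_univ_succ, h3 t a, h0]
      have : (Kind.bwd : Kind k).val t = t.rev := rfl
      rw [this]
      split_ifs <;> omega

/-- From count vectors to the cube hypergraph. -/
theorem Col.twoColorable {m k n : ℕ} (h : Col m {j | 1 ≤ j ∧ j ≤ n}) (hm : 1 ≤ m)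
    (hk : 2 * m + 1 ≤ k) : TwoColorable k n := by
  obtain ⟨f, hf⟩ := h
  let em : Fin m → Fin k := fun s => ⟨s, by have := s.isLt; omega⟩
  refine ⟨fun x => f fun s => ∑ i, if x i = em s then 1 else 0, fun e he => ?_⟩
  obtain ⟨K, hact, hK⟩ := edge_structure (by omega) he
  obtain ⟨c, j, l, h1, h2, h3⟩ := line_counts K
  have h2' := h2 hact
  by_contra hcon
  push Not at hcon
  have key : ∀ s t : Fin k, (f fun a => c (em a) + (if s = em a then j else 0) +
      (if s.rev = em a then l else 0)) = f fun a => c (em a) + (if t = em a then j else 0) +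
      (if t.rev = em a then l else 0) := by
    intro s t
    have := hcon _ (hK s) _ (hK t)
    simp only [h3] at this
    exact this
  let b : Fin k := ⟨m, by omega⟩
  have hb : ∀ a : Fin m, b ≠ em a := by
    intro a h
    have := congrArg Fin.val h
    simp only [b, em] at this
    have := a.isLt
    omega
  have hb' : ∀ a : Fin m, b.rev ≠ em a := by
    intro a h
    have := congrArg Fin.val h
    rw [Fin.val_rev] at this
    simp only [b, em] at this
    have := a.isLt
    omega
  have hrev : ∀ s a : Fin m, (em s).rev ≠ em a := by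
    intro s a h
    have := congrArg Fin.val h
    rw [Fin.val_rev] at this
    simp only [em] at this
    have := a.isLt
    have := s.isLt
    omega
  have hinj : ∀ s a : Fin m, em s = em a ↔ s = a := by
    intro s a
    constructor
    · intro h
      have h' := congrArg Fin.val h
      exact Fin.ext h'
    · rintro rfl; rfl
  have hbase : ∀ t, (f fun a => c (em a) + (if t = em a then j else 0) +
      (if t.rev = em a then l else 0)) = f fun a => c (em a) := by
    intro t
    rw [key t b]
    congr 1
    funext a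
    simp [hb a, hb' a]
  rcases Nat.eq_zero_or_pos j with hj | hj
  · -- `l ≥ 1`
    obtain ⟨s, hs⟩ := hf (fun a => c (em a)) l ⟨by omega, by omega⟩
    apply hs
    rw [← hbase (em s).rev]
    congr 1
    funext a
    rw [Fin.rev_rev]
    by_cases ha : s = a
    · subst ha
      simp [hrev]
    · simp [hrev, hinj, ha, Pi.single_apply, Ne.symm ha]
  · obtain ⟨s, hs⟩ := hf (fun a => c (em a)) j ⟨by omega, by omega⟩
    apply hs
    rw [← hbase (em s)]
    congr 1
    funext a
    by_cases ha : s = a
    · subst ha
      simp [hrev]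
    · simp [hrev, hinj, ha, Pi.single_apply, Ne.symm ha]

end Pool.Agent.helper12.HJ
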