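import Mathlib
import Pool.Agent.helper12.HJ.Col

/-!
# Cyclic colourings of Paley type, checked by rotations of bit masks
-/

namespace Pool.Agent.helper12.HJ

/-- rotation: bit `q` is bit `(q + s) mod M` of `h` -/
def rot (M h s : ℕ) : ℕ := (h >>> s) ||| (h <<< (M - s))

/-- union of the differences of `h` with its rotations by `j a` -/
def dif (M h j : ℕ) : List ℕ → ℕ
  | [] => 0
  | a :: A => ((rot M h (j * a % M)) ^^^ h) ||| dif M h j A

/-- for every `j` in `1..M-1` the differences cover all bits -/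
def chk (M h : ℕ) (A : List ℕ) : Bool :=
  decide (0 < M) && decide (h < 2 ^ M) &&
    (List.range M).all fun j => j == 0 || dif M h j A % 2 ^ M == 2 ^ M - 1

theorem testBit_rot {M h s q : ℕ} (hh : h < 2 ^ M) (hs : s < M) (hq : q < M) :
    (rot M h s).testBit q = h.testBit ((q + s) % M) := by
  unfold rot
  rw [Nat.testBit_or, Nat.testBit_shiftRight, Nat.testBit_shiftLeft]
  rcases Nat.lt_or_ge (q + s) M with h1 | h1
  · rw [Nat.mod_eq_of_lt h1]
    have : ¬ (M - s ≤ q) := by omega
    simp [this, Nat.add_comm]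
  · have e : (q + s) % M = q - (M - s) := by
      rw [Nat.mod_eq_sub_mod h1, Nat.mod_eq_of_lt (by omega)]
      omega
    have e2 : h.testBit (s + q) = false := by
      apply Nat.testBit_eq_false_of_lt
      exact lt_of_lt_of_le hh (Nat.pow_le_pow_right (by norm_num) (by omega))
    rw [e, e2]
    have : M - s ≤ q := by omega
    simp [this]

theorem exists_of_dif {M h j q : ℕ} (hh : h < 2 ^ M) (hM : 0 < M) (hq : q < M) :
    ∀ A : List ℕ, (dif M h j A).testBit q = true →
      ∃ a ∈ A, h.testBit ((q + j * a) % M) ≠ h.testBit q := by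
  intro A
  induction A with
  | nil => intro h0; simp [dif] at h0
  | cons a A ih =>
    intro h0
    rw [dif, Nat.testBit_or, Bool.or_eq_true] at h0
    rcases h0 with h0 | h0
    · refine ⟨a, List.mem_cons_self, ?_⟩
      rw [Nat.testBit_xor, testBit_rot hh (Nat.mod_lt _ hM) hq] at h0
      rw [Nat.add_mod_mod] at h0
      intro h1
      rw [h1] at h0
      simp at h0
    · obtain ⟨b, hb, hb'⟩ := ih h0
      exact ⟨b, List.mem_cons_of_mem _ hb, hb'⟩

theorem col_of_chk {M h : ℕ} {A : List ℕ} (hc : chk M h A = true) :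
    Col A.length {j | ¬ M ∣ j} := by
  unfold chk at hc
  simp only [Bool.and_eq_true, decide_eq_true_eq, List.all_eq_true, List.mem_range,
    Bool.or_eq_true, beq_iff_eq] at hc
  obtain ⟨⟨hM, hh⟩, hall⟩ := hc
  refine ⟨fun c => h.testBit ((∑ s, A.get s * c s) % M), fun c j hj => ?_⟩
  set q := (∑ s, A.get s * c s) % M with hq
  have hqM : q < M := Nat.mod_lt _ hM
  have hj0 : j % M ≠ 0 := fun h0 => hj (Nat.dvd_of_mod_eq_zero h0)
  have h1 := (hall (j % M) (Nat.mod_lt _ hM)).resolve_left hj0
  have h2 : (dif M h (j % M) A).testBit q = true := by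
    have e : (dif M h (j % M) A % 2 ^ M).testBit q = true := by
      rw [h1, Nat.testBit_two_pow_sub_one]
      simpa using hqM
    rw [Nat.testBit_mod_two_pow] at e
    simp only [Bool.and_eq_true] at e
    exact e.2
  obtain ⟨a, ha, hne⟩ := exists_of_dif hh hM hqM A h2
  obtain ⟨s, hs⟩ := List.get_of_mem ha
  refine ⟨s, ?_⟩
  have e3 : ∑ t, A.get t * (c + (Pi.single s j : Fin A.length → ℕ)) t = (∑ t, A.get t * c t) + A.get s * j := by
    simp only [Pi.add_apply, mul_add, Finset.sum_add_distrib]
    congr 1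
    rw [Finset.sum_eq_single s]
    · simp
    · intro b _ hb
      simp [Pi.single_apply, hb]
    · simp
  show h.testBit ((∑ t, A.get t * (c + (Pi.single s j : Fin A.length → ℕ)) t) % M) ≠ h.testBit q
  rw [e3, hs]
  have e4 : (q + j % M * a) % M = ((∑ t, A.get t * c t) + a * j) % M := by
    rw [hq, Nat.mod_add_mod, Nat.add_mod, Nat.mod_mul_mod, ← Nat.add_mod, Nat.mul_comm j a]
  rw [← e4]
  exact hne

/-- modulus `2`, one letter -/
theorem col2 : Col 1 {j | ¬ 2 ∣ j} := col_of_chk (h := 1) (A := [1]) (by decide +kernel)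

/-- modulus `13`, three letters -/
theorem col13 : Col 3 {j | ¬ 13 ∣ j} :=
  col_of_chk (h := 7764) (A := [1, 3, 11]) (by decide +kernel)

/-- modulus `83`, four letters; quadratic residues mod `83` -/
theorem col83 : Col 4 {j | ¬ 83 ∣ j} :=
  col_of_chk (h := 0x26873a80b1372fea31e9a) (A := [65, 42, 19, 1]) (by decide +kernel)

/-- modulus `503`, five letters; quadratic residues mod `503` -/
theorem col503 : Col 5 {j | ¬ 503 ∣ j} :=
  col_of_chk (h := 0x421580736c4156a4b28a1640777399d25da0dc59d123c31503a7f6e1a93c7b21c36a78901a3f573c3b7465c4fa45b4663111fd97aeb2da957dc931fe57bde)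
    (A := [1, 114, 390, 137, 367]) (by decide +kernel)

end Pool.Agent.helper12.HJ
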